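import Mathlib
import Pool.Agent.Lib.MP_1ad17e_al_P.Defs

/-! MP_1ad17e_al, paper p4_good_paper.md, generalities and (2.1) - (2.5). -/

set_option autoImplicit false

namespace E1adP

open Subgroup E1adH4 E1adH58 E1adH59
open scoped commutatorElement

variable {G : Type*} [Group G]

theorem Om_conj_le17 (S : Subgroup G) (g : G) : Om (cj g S) ≤ cj g (Om S) := by
  rw [Om_le_iff]
  intro v hv hv2
  rw [mem_cj] at hv ⊢
  refine mem_Om hv ?_
  calc g⁻¹ * v * g * (g⁻¹ * v * g) = g⁻¹ * (v * v) * g := by group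
    _ = 1 := by rw [hv2]; group

theorem Om_cj17 (S : Subgroup G) (g : G) : Om (cj g S) = cj g (Om S) := by
  refine le_antisymm (Om_conj_le17 S g) ?_
  intro v hv
  rw [mem_cj] at hv
  have h1 : cj g⁻¹ (cj g S) = S := by
    ext x
    rw [mem_cj, mem_cj]
    have e : g⁻¹ * (g⁻¹⁻¹ * x * g⁻¹) * g = x := by group
    rw [e]
  have h2 := Om_conj_le17 (cj g S) g⁻¹
  rw [h1] at h2
  have h3 := h2 hv
  rw [mem_cj] at h3
  have e : g⁻¹⁻¹ * (g⁻¹ * v * g) * g⁻¹ = v := by group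
  rwa [e] at h3

/-- an element which normalises `S` normalises `Om S` -/
theorem Om_norm17 {S : Subgroup G} {g : G} (h : ∀ z, z ∈ S ↔ g * z * g⁻¹ ∈ S) :
    ∀ z, z ∈ Om S ↔ g * z * g⁻¹ ∈ Om S := by
  have h1 : cj g S = S := by
    ext x
    rw [mem_cj, h (g⁻¹ * x * g)]
    have e : g * (g⁻¹ * x * g) * g⁻¹ = x := by group
    rw [e]
  intro z
  have h2 : g * z * g⁻¹ ∈ cj g (Om S) ↔ z ∈ Om S := by
    rw [mem_cj]
    have e : g⁻¹ * (g * z * g⁻¹) * g = z := by group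
    rw [e]
  rw [← h2, ← Om_cj17, h1]

theorem cj_normalizer17 {S : Subgroup G} {g : G} (h : g ∈ normalizer (S : Set G)) :
    cj g S = S := by
  ext x
  rw [mem_cj]
  rw [mem_normalizer_iff] at h
  have h1 := h (g⁻¹ * x * g)
  have e : g * (g⁻¹ * x * g) * g⁻¹ = x := by group
  rw [e] at h1
  exact h1

variable [Finite G]

/-! ### generalities -/

/-- every 2-subgroup of `N` lies in a maximal one -/
theorem exists_maxTwo {N X : Subgroup G} (hX : IsPGroup 2 X) (hXN : X ≤ N) :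
    ∃ U, MaxTwo N U ∧ X ≤ U := maxTwo_exists hXN hX

/-- Sylow: `X` a 2-subgroup of `N`, `U` maximal: a conjugate of `X` under `N` is in `U` -/
theorem maxTwo_conj {N U X : Subgroup G} (hU : MaxTwo N U) (hX : IsPGroup 2 X) (hXN : X ≤ N) :
    ∃ g ∈ N, ∀ x ∈ X, g * x * g⁻¹ ∈ U := by
  obtain ⟨g, hg, h⟩ := exists_cj_le hU hXN hX
  refine ⟨g⁻¹, inv_mem hg, fun x hx => ?_⟩
  rw [inv_inv]
  exact mem_cj.1 (h hx)

/-- a proper subgroup of a 2-group grows under the normaliser -/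
theorem normalizer_grows {X E : Subgroup G} (hE : IsPGroup 2 E) (hXE : X ≤ E) (hne : X ≠ E) :
    ∃ t ∈ E, t ∉ X ∧ t * t ∈ X ∧ ∀ z, z ∈ X ↔ t * z * t⁻¹ ∈ X :=
  exists_normalizing hE (lt_of_le_of_ne hXE hne)

/-- (K5) -/
theorem k5 {n k : ℕ} (hcl : Cls G n) (hnk : n ≤ k) {T : Subgroup G} (hT : IsPGroup 2 T) {r : G}
    (hr : r ∈ T) : Cent (r ^ (2 ^ k)) T := by
  intro v hv hv2
  have h0 : (⊤ : Subgroup T).lowerCentralSeries n = ⊥ := by
    rw [← map_subtype_inj, Subgroup.map_bot, top_subtype_lowerCentralSeries, hcl T hT]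
  have h1 := comm_mem (x := (⟨r, hr⟩ : T)) (q := ⟨v, hv⟩) (Subtype.ext hv2) k
  have h2 := Subgroup.lowerCentralSeries_antitone (⊤ : Subgroup T) (show n ≤ k + 1 by omega) h1
  rw [h0, Subgroup.mem_bot, commutatorElement_eq_one_iff_mul_comm] at h2
  exact congrArg Subtype.val h2

/-! ### (2.1) - (2.5) -/

/-- the 2-part of a root -/
theorem exists_two_root17 {k : ℕ} {y r : G} (hy : y * y = 1) (hr : r ^ (2 ^ k) = y) :
    ∃ s, s ^ (2 ^ k) = y ∧ IsPGroup 2 (zpowers s) := by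
  obtain ⟨a, m, hm, ham⟩ := Nat.exists_eq_two_pow_mul_odd (orderOf_pos r).ne'
  obtain ⟨j, hj⟩ := hm
  refine ⟨r ^ m, ?_, ?_⟩
  · rw [← pow_mul, mul_comm, pow_mul, hr, hj, pow_succ, pow_mul, pow_two, hy, one_pow, one_mul]
  · have h1 : (r ^ m) ^ (2 ^ a) = 1 := by
      rw [← pow_mul, mul_comm, ← ham, pow_orderOf_eq_one]
    have h2 : Nat.card (zpowers (r ^ m)) ∣ 2 ^ a := by
      rw [Nat.card_zpowers]
      exact orderOf_dvd_of_pow_eq_one h1
    obtain ⟨i, -, hi⟩ := (Nat.dvd_prime_pow Nat.prime_two).1 h2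
    exact IsPGroup.of_card hi

theorem s2_1 {k : ℕ} {y : G} (hy : y ∈ YY G k) {X : Subgroup G} (hX : IsPGroup 2 X)
    (hXy : ∀ x ∈ X, x * y = y * x) : ∃ T, MaxTwo ⊤ T ∧ X ≤ T ∧ ∃ r ∈ T, r ^ (2 ^ k) = y := by
  obtain ⟨hy2, -, r, hr⟩ := hy
  obtain ⟨s, hs, hs2⟩ := exists_two_root17 hy2 hr
  have hsy : zpowers s ≤ centralizer {y} := by
    rw [zpowers_le, mem_centralizer_singleton_iff, ← hs]
    exact (Commute.self_pow s (2 ^ k)).eq
  have hXc : X ≤ centralizer {y} := by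
    intro x hx
    rw [mem_centralizer_singleton_iff]
    exact hXy x hx
  obtain ⟨U, hU, hXU⟩ := maxTwo_exists hXc hX
  obtain ⟨g, hg, hsg⟩ := exists_cj_le hU hsy hs2
  obtain ⟨T, hT, hUT⟩ := maxTwo_exists (N := ⊤) le_top hU.2.1
  refine ⟨T, hT, hXU.trans hUT, g⁻¹ * s * g, ?_, ?_⟩
  · exact hUT (mem_cj.1 (hsg (mem_zpowers s)))
  · have e : g⁻¹ * s * g = g⁻¹ * s * g⁻¹⁻¹ := by group
    have hgy : g * y = y * g := mem_centralizer_singleton_iff.1 hg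
    rw [e, conj_pow, hs]
    calc g⁻¹ * y * g⁻¹⁻¹ = g⁻¹ * (y * g) := by group
      _ = g⁻¹ * (g * y) := by rw [hgy]
      _ = y := by group

/-- (2.1) with the commutation -/
theorem s2_1' {n k : ℕ} (hcl : Cls G n) (hnk : n ≤ k) {y : G} (hy : y ∈ YY G k)
    {X : Subgroup G} (hX : IsPGroup 2 X) (hXy : ∀ x ∈ X, x * y = y * x) :
    ∃ T, MaxTwo ⊤ T ∧ X ≤ T ∧ y ∈ T ∧ (∃ r ∈ T, r ^ (2 ^ k) = y) ∧ Cent y T := by
  obtain ⟨T, hT, hXT, r, hr, hry⟩ := s2_1 hy hX hXy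
  refine ⟨T, hT, hXT, ?_, ⟨r, hr, hry⟩, ?_⟩
  · rw [← hry]
    exact T.pow_mem hr _
  · rw [← hry]
    exact k5 hcl hnk hT.2.1 hr

/-- existence of `W` -/
theorem exists_bad {k : ℕ}
    (h : ∃ (T : Subgroup G) (y : G), MaxTwo ⊤ T ∧ y ∈ YY G k ∧ y ∈ T ∧ ¬ Cent y T) :
    ∃ W : Subgroup G, Bad k W := by
  obtain ⟨T0, y0, h0⟩ := h
  have hfin : {W : Subgroup G | ∃ (T : Subgroup G) (y : G), MaxTwo ⊤ T ∧ y ∈ YY G k ∧ y ∈ T ∧
      ¬ Cent y T ∧ Om (T ⊓ centralizer {y}) = W}.Finite := Set.toFinite _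
  obtain ⟨W, hW, hmax⟩ := Set.exists_max_image _ (fun W : Subgroup G => Nat.card W) hfin
    ⟨_, T0, y0, h0.1, h0.2.1, h0.2.2.1, h0.2.2.2, rfl⟩
  exact ⟨W, hW, fun T y h1 h2 h3 h4 => hmax _ ⟨T, y, h1, h2, h3, h4, rfl⟩⟩

theorem not_cent_iff {y : G} {T : Subgroup G} :
    ¬ Cent y T ↔ ∃ v ∈ T, v * v = 1 ∧ y * v ≠ v * y := by
  unfold Cent
  push Not
  exact Iff.rfl

section S2

variable {n k : ℕ} {W : Subgroup G}

omit [Finite G] in
theorem bad_pgroup (hW : Bad k W) : IsPGroup 2 W := by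
  obtain ⟨T, y, hT, -, -, -, rfl⟩ := hW.1
  exact hT.2.1.to_le ((Om_le _).trans inf_le_left)

omit [Finite G] in
theorem bad_om (hW : Bad k W) : Om W = W := by
  obtain ⟨T, y, -, -, -, -, rfl⟩ := hW.1
  exact Om_idem _

theorem bad_card_lt (hW : Bad k W) {T : Subgroup G} (hT : MaxTwo ⊤ T) :
    Nat.card W < Nat.card (Om T : Subgroup G) := by
  obtain ⟨T1, y, hT1, hy, hyT, hc, hWe⟩ := hW.1
  obtain ⟨v, hv, hv2, hvy⟩ := not_cent_iff.1 hc
  obtain ⟨g, -, hg⟩ := maxTwo_conj' hT1 hT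
  have h1 : Nat.card (Om T : Subgroup G) = Nat.card (Om T1 : Subgroup G) := by
    rw [hg, Om_cj17, card_cj]
  rw [h1]
  have h2 : W < Om T1 := by
    refine lt_of_le_of_ne ?_ ?_
    · rw [← hWe]
      exact Om_mono inf_le_left
    · intro h
      have h3 : v ∈ W := by
        rw [h]
        exact mem_Om hv hv2
      rw [← hWe] at h3
      have h4 := (mem_inf.1 (Om_le _ h3)).2
      exact hvy (mem_centralizer_singleton_iff.1 h4).symm
  exact Set.ncard_lt_ncard (s := (W : Set G)) (t := ((Om T1 : Subgroup G) : Set G)) h2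
    (Set.toFinite _)

theorem s2_2 (hW : Bad k W) {T : Subgroup G} (hT : MaxTwo ⊤ T) : Om T ≠ W := by
  intro h
  have := bad_card_lt hW hT
  rw [h] at this
  exact lt_irrefl _ this

/-- if `T ≥ W` is a Sylow 2-subgroup then `N_T(W)` contains an element of `II W` -/
theorem s2_4c (hW : Bad k W) {T : Subgroup G} (hT : MaxTwo ⊤ T) (hWT : W ≤ T) :
    ∃ v ∈ T, v ∈ II W := by
  by_contra hcon
  push Not at hcon
  have h1 : Om (T ⊓ normalizer (W : Set G)) = W := by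
    refine le_antisymm ?_ ?_
    · rw [Om_le_iff]
      intro v hv hv2
      by_contra hvW
      exact hcon v (mem_inf.1 hv).1 ⟨hv2, (mem_inf.1 hv).2, hvW⟩
    · conv_lhs => rw [← bad_om hW]
      exact Om_mono (le_inf hWT le_normalizer)
  have h2 : T ⊓ normalizer (W : Set G) = T := by
    by_contra hne
    have hlt : T ⊓ normalizer (W : Set G) < T := lt_of_le_of_ne inf_le_left hne
    obtain ⟨s, hs, hsn, -, hsz⟩ := exists_normalizing hT.2.1 hlt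
    apply hsn
    refine mem_inf.2 ⟨hs, ?_⟩
    rw [mem_normalizer_iff]
    have h3 := Om_norm17 hsz
    rw [h1] at h3
    exact h3
  rw [h2] at h1
  exact s2_2 hW hT h1

theorem s2_3a (hW : Bad k W) {T : Subgroup G} {y : G} (hT : MaxTwo ⊤ T) (hWT : W ≤ T)
    (hy : y ∈ Sg k W) (hyT : ¬ Cent y T) : Om (T ⊓ centralizer {y}) = W := by
  have h1 : W ≤ Om (T ⊓ centralizer {y}) := by
    conv_lhs => rw [← bad_om hW]
    refine Om_mono (le_inf hWT ?_)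
    intro w hw
    rw [mem_centralizer_singleton_iff]
    exact (hy.2.2 w hw).symm
  exact (Subgroup.eq_of_le_of_card_ge h1 (hW.2 T y hT hy.1 (hWT hy.2.1) hyT)).symm

theorem s2_3b (hW : Bad k W) {T : Subgroup G} {y : G} (hT : MaxTwo ⊤ T) (hWT : W ≤ T)
    (hy : y ∈ Sg k W) (hyT : ¬ Cent y T) : ∃ v ∈ T, v ∈ II W ∧ y * v ≠ v * y := by
  obtain ⟨v, hvT, hv⟩ := s2_4c hW hT hWT
  refine ⟨v, hvT, hv, ?_⟩
  intro hvy
  apply hv.2.2
  rw [← s2_3a hW hT hWT hy hyT]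
  exact mem_Om (mem_inf.2 ⟨hvT, mem_centralizer_singleton_iff.2 hvy.symm⟩) hv.1

/-- `W` lies in all maximal 2-subgroups of its normaliser. -/
theorem le_of_maxTwo17 {W U : Subgroup G} (hW : IsPGroup 2 W)
    (hU : MaxTwo (normalizer (W : Set G)) U) : W ≤ U := by
  obtain ⟨g, hg, h⟩ := exists_cj_le hU (le_normalizer (H := W)) hW
  have h1 : cj g⁻¹ W ≤ U := by
    intro x hx
    rw [mem_cj] at hx
    have h2 := h hx
    rw [mem_cj] at h2
    have e : g⁻¹ * (g⁻¹⁻¹ * x * g⁻¹) * g = x := by group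
    rwa [e] at h2
  rwa [cj_normalizer17 (inv_mem hg)] at h1

omit [Finite G] in
theorem inf_eq_of_maxTwo17 {N U T : Subgroup G} (hU : MaxTwo N U) (hT : IsPGroup 2 T)
    (hUT : U ≤ T) : T ⊓ N = U :=
  le_antisymm (hU.2.2 _ inf_le_right (hT.to_le inf_le_left) (le_inf hUT hU.1)) (le_inf hUT hU.1)

theorem s2_4a (hW : Bad k W) {U : Subgroup G} (hU : MaxTwo (normalizer (W : Set G)) U) :
    ∃ v ∈ U, v ∈ II W := by
  obtain ⟨T, hT, hUT⟩ := maxTwo_exists (N := ⊤) le_top hU.2.1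
  obtain ⟨v, hvT, hv⟩ := s2_4c hW hT ((le_of_maxTwo17 (bad_pgroup hW) hU).trans hUT)
  refine ⟨v, ?_, hv⟩
  rw [← inf_eq_of_maxTwo17 hU hT.2.1 hUT]
  exact mem_inf.2 ⟨hvT, hv.2.1⟩

theorem s2_4b (hW : Bad k W) {U T : Subgroup G} (hU : MaxTwo (normalizer (W : Set G)) U)
    (hT : MaxTwo ⊤ T) (hUT : U ≤ T) {y : G} (hy : y ∈ Sg k W) : y ∈ Fx k W U ↔ Cent y T := by
  constructor
  · rintro ⟨-, h⟩
    by_contra hcon
    obtain ⟨v, hvT, hv, hvy⟩ :=
      s2_3b hW hT ((le_of_maxTwo17 (bad_pgroup hW) hU).trans hUT) hy hcon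
    apply hvy
    refine h v ?_ hv.1
    rw [← inf_eq_of_maxTwo17 hU hT.2.1 hUT]
    exact mem_inf.2 ⟨hvT, hv.2.1⟩
  · intro h
    exact ⟨hy, fun v hv => h v (hUT hv)⟩

theorem s2_5 (hW : Bad k W) {U : Subgroup G} (hU : MaxTwo (normalizer (W : Set G)) U) {v : G}
    (hv : v ∈ II W) (hvU : v ∈ U) : Fi k W v = Fx k W U := by
  ext y
  constructor
  · rintro ⟨hy, hvy⟩
    obtain ⟨T, hT, hUT⟩ := maxTwo_exists (N := ⊤) le_top hU.2.1
    have hWT : W ≤ T := (le_of_maxTwo17 (bad_pgroup hW) hU).trans hUT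
    rw [s2_4b hW hU hT hUT hy]
    by_contra hcon
    have h1 := s2_3a hW hT hWT hy hcon
    apply hv.2.2
    rw [← h1]
    exact mem_Om (mem_inf.2 ⟨hUT hvU, mem_centralizer_singleton_iff.2 hvy.symm⟩) hv.1
  · rintro ⟨hy, h⟩
    exact ⟨hy, h v hvU hv.1⟩

end S2

end E1adP
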